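import Pool.Agent.H72.PER.Targets
import Pool.Agent.H48.SBP.FHR

/-! Row FHRK of the board per_modules: the half rank theorem in the residue field, with a set of
indices. -/

open Module Filter

namespace Pool.Agent.H60.PER

open Pool.Agent.H72.SBP
open Pool.Agent.H72.BF (Pkg AlgB T_LFT T_ROOT)
open Pool.Agent.H72.HR
open Pool.Agent.H72.HRA
open Pool.Agent.H72.PER
open Pool.Agent.H48.SBP (algB_mono2 ev_vecMul ev_ite det_ev)

theorem mem_XiCK {n l c : ℕ} {K : Set (Fin n)} {A : Fin (n + 1) → Matrix (Fin l) (Fin c) ℂ}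
    {U : Submodule ℂ (Fin c → ℂ)} {y : Fin l → ℂ} (h : y ∈ XiC K A U) (k : Fin (n + 1))
    (hk : k ∈ ({0} ∪ Fin.succ '' K : Set (Fin (n + 1)))) :
    Matrix.vecMul y (A k) ∈ U := by
  obtain ⟨h1, h2⟩ := h
  rcases hk with hk | ⟨j, hj, rfl⟩
  · rw [Set.mem_singleton_iff] at hk
    subst hk
    exact h1
  · have h3 := (Submodule.mem_iInf _).1 ((Submodule.mem_iInf _).1 h2 j) hj
    exact h3

section
variable {H : ℕ → ℝ} (P : Pkg H)

theorem semi_evK (hECH : T_ECH) (hDSC : T_DSC) {n l c : ℕ} (K : Set (Fin n))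
    (A : Fin (n + 1) → Matrix (Fin l) (Fin c) P.kb)
    (At : ℕ → Fin (n + 1) → Matrix (Fin l) (Fin c) ℂ)
    (hO : ∀ k p j, (fun t => At t k p j) ∈ P.O)
    (hev : ∀ k p j, P.ev (fun t => At t k p j) = algebraMap P.kb P.F (A k p j))
    (hA : ∀ (V : Submodule P.kb (Fin l → P.kb)) (U : Submodule P.kb (Fin c → P.kb)),
      Into ({0} ∪ Fin.succ '' K) A V U → c * finrank P.kb V ≤ l * finrank P.kb U) :
    ∀ᶠ t in (hyperfilter ℕ : Filter ℕ), SemiC K (At t) := by
  classical
  by_contra hcon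
  have hcon2 : ∀ᶠ t in (hyperfilter ℕ : Filter ℕ), ¬ SemiC K (At t) :=
    (Ultrafilter.eventually_not (f := hyperfilter ℕ)).2 hcon
  have h1 : ∀ᶠ t in (hyperfilter ℕ : Filter ℕ),
      ∃ x : (Σ u : Fin (c + 1), Σ m : Fin (l + 1),
        (Fin (u : ℕ) → Fin c) × (Fin (m : ℕ) → Fin l)),
      l * (x.1 : ℕ) < c * (x.2.1 : ℕ) ∧
      ∃ by_ : (Fin (x.1 : ℕ) → Fin c → ℂ) × (Fin (x.2.1 : ℕ) → Fin l → ℂ),
        (∀ i j, by_.1 i (x.2.2.1 j) = if i = j then 1 else 0) ∧ (∀ i k, ‖by_.1 i k‖ ≤ 1) ∧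
        (∀ i j, by_.2 i (x.2.2.2 j) = if i = j then 1 else 0) ∧ (∀ i k, ‖by_.2 i k‖ ≤ 1) ∧
        ∀ i, ∀ k ∈ ({0} ∪ Fin.succ '' K : Set (Fin (n + 1))), ∀ j,
          Matrix.vecMul (by_.2 i) (At t k) j =
          ∑ s, Matrix.vecMul (by_.2 i) (At t k) (x.2.2.1 s) * by_.1 s j := by
    filter_upwards [hcon2] with t ht
    unfold SemiC at ht
    push Not at ht
    obtain ⟨U, hU⟩ := ht
    have hu : finrank ℂ U < c + 1 := by
      have := Submodule.finrank_le U
      simp only [finrank_fintype_fun_eq_card, Fintype.card_fin] at this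
      omega
    have hm : finrank ℂ (XiC K (At t) U) < l + 1 := by
      have := Submodule.finrank_le (XiC K (At t) U)
      simp only [finrank_fintype_fun_eq_card, Fintype.card_fin] at this
      omega
    obtain ⟨J, b, hb1, hb2, hb3, hb4⟩ := hECH c U _ rfl
    obtain ⟨I, y, hy1, hy2, hy3, hy4⟩ := hECH l (XiC K (At t) U) _ rfl
    refine ⟨⟨⟨_, hu⟩, ⟨_, hm⟩, J, I⟩, hU, ⟨b, y⟩, hb2, hb3, hy2, hy3, ?_⟩
    intro i k hk j
    have h2 := hb4 _ (mem_XiCK (hy1 i) k hk)
    have h3 := congrFun h2 j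
    rw [Finset.sum_apply] at h3
    exact h3
  rw [Ultrafilter.eventually_exists_iff] at h1
  obtain ⟨⟨u, m, J, I⟩, hx⟩ := h1
  have hlt : l * (u : ℕ) < c * (m : ℕ) := by
    obtain ⟨t, ht⟩ := hx.exists
    exact ht.1
  have hx2 := hx.mono fun t ht => ht.2
  obtain ⟨f, hf⟩ := hx2.choice
  simp only at hf
  have hbO : ∀ i k, (fun t => (f t).1 i k) ∈ P.O := by
    intro i k
    refine (P.memO _).2 ⟨0, ?_⟩
    filter_upwards [hf] with t ht
    simpa using ht.2.1 i k
  have hyO : ∀ i k, (fun t => (f t).2 i k) ∈ P.O := by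
    intro i k
    refine (P.memO _).2 ⟨0, ?_⟩
    filter_upwards [hf] with t ht
    simpa using ht.2.2.2.1 i k
  obtain ⟨U, hU1, hU2⟩ := hDSC P.kb P.F n l c u m
    (fun k => if k ∈ ({0} ∪ Fin.succ '' K : Set (Fin (n + 1))) then A k else 0) J I
    (fun i k => P.ev (fun t => (f t).1 i k)) (fun i k => P.ev (fun t => (f t).2 i k)) (by
      intro i j
      refine ev_ite P (hbO i (J j)) _ ?_
      filter_upwards [hf] with t ht
      exact ht.1 i j) (by
      intro i j
      refine ev_ite P (hyO i (I j)) _ ?_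
      filter_upwards [hf] with t ht
      exact ht.2.2.1 i j) (by
      intro i k j
      by_cases hk : k ∉ ({0} ∪ Fin.succ '' K : Set (Fin (n + 1)))
      · simp only [if_neg hk]
        have e0 : (0 : Matrix (Fin l) (Fin c) P.kb).map (algebraMap P.kb P.F) = 0 := by
          ext p q
          simp
        rw [e0]
        simp
      have hk' : k ∈ ({0} ∪ Fin.succ '' K : Set (Fin (n + 1))) := not_not.1 hk
      simp only [if_pos hk']
      have hM : ∀ p j, P.ev (fun t => At t k p j) = ((A k).map (algebraMap P.kb P.F)) p j := by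
        intro p j
        rw [Matrix.map_apply]
        exact hev k p j
      have hv : ∀ j, (fun t => Matrix.vecMul ((f t).2 i) (At t k) j) ∈ P.O ∧
          P.ev (fun t => Matrix.vecMul ((f t).2 i) (At t k) j) =
            Matrix.vecMul (fun p => P.ev (fun t => (f t).2 i p))
              ((A k).map (algebraMap P.kb P.F)) j := fun j =>
        ev_vecMul P (fun t => At t k) (fun t => (f t).2 i) _ _ (fun p j => hO k p j) hM
          (fun p => hyO i p) (fun p => rfl) j
      rw [← (hv j).2]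
      have h5 : ∀ᶠ t in (hyperfilter ℕ : Filter ℕ),
          (fun t => Matrix.vecMul ((f t).2 i) (At t k) j) t =
          (∑ s, (fun t => Matrix.vecMul ((f t).2 i) (At t k) (J s)) *
            (fun t => (f t).1 s j)) t := by
        filter_upwards [hf] with t ht
        have h6 := ht.2.2.2.2 i k hk' j
        rw [Finset.sum_apply]
        exact h6
      rw [(P.ev_congr (hv j).1 h5).1]
      have h7 : ∀ s ∈ Finset.univ, (fun t => Matrix.vecMul ((f t).2 i) (At t k) (J s)) *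
            (fun t => (f t).1 s j) ∈ P.O := fun s _ => P.O.mul_mem (hv (J s)).1 (hbO s j)
      rw [P.ev_sum _ _ h7]
      refine Finset.sum_congr rfl fun s _ => ?_
      rw [P.ev_mul (hv (J s)).1 (hbO s j), (hv (J s)).2])
  have h8 := hA (XiK (fun k => if k ∈ ({0} ∪ Fin.succ '' K : Set (Fin (n + 1))) then A k else 0)
    U) U (by
      intro k hk y hy
      have h10 := (Submodule.mem_iInf _).1 hy k
      have h11 : Matrix.vecMul y ((fun k => if k ∈ ({0} ∪ Fin.succ '' K : Set (Fin (n + 1)))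
        then A k else 0) k) ∈ U := h10
      simp only [if_pos hk] at h11
      exact h11)
  rw [hU1] at h8
  have h9 := Nat.mul_le_mul_left c hU2
  omega

end

theorem pf_FHRK (hECH : T_ECH) (hDSC : T_DSC) (hLFT : T_LFT) (_hROOT : T_ROOT) : T_FHRK := by
  intro hHRA n lam K halg hMI H hH P l c A hA
  -- sequences
  have h1 : ∀ k p j, ∃ (δ c0 : ℕ) (z : ℕ → ℂ), z ∈ P.O ∧
      P.ev z = algebraMap P.kb P.F (A k p j) ∧ ∀ t, AlgB δ (H t ^ c0) (z t) := by
    intro k p j
    exact hLFT H P _ (mem_algebraicClosure_iff.1 (A k p j).2)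
  choose δ_ c_ z hzO hzev hzalg using h1
  obtain ⟨δ, hδ⟩ : ∃ δ : ℕ, ∀ k p j, δ_ k p j ≤ δ := by
    refine ⟨∑ k, ∑ p, ∑ j, δ_ k p j, fun k p j => ?_⟩
    calc δ_ k p j ≤ ∑ j, δ_ k p j :=
          Finset.single_le_sum (f := δ_ k p) (fun _ _ => Nat.zero_le _) (Finset.mem_univ j)
      _ ≤ ∑ p, ∑ j, δ_ k p j :=
          Finset.single_le_sum (f := fun p => ∑ j, δ_ k p j) (fun _ _ => Nat.zero_le _)
            (Finset.mem_univ p)
      _ ≤ _ := Finset.single_le_sum (f := fun k => ∑ p, ∑ j, δ_ k p j) (fun _ _ => Nat.zero_le _)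
            (Finset.mem_univ k)
  obtain ⟨c0, hc0, hc01⟩ : ∃ c0 : ℕ, (∀ k p j, c_ k p j ≤ c0) ∧ 1 ≤ c0 := by
    refine ⟨(∑ k, ∑ p, ∑ j, c_ k p j) + 1, fun k p j => ?_, by omega⟩
    calc c_ k p j ≤ ∑ j, c_ k p j :=
          Finset.single_le_sum (f := c_ k p) (fun _ _ => Nat.zero_le _) (Finset.mem_univ j)
      _ ≤ ∑ p, ∑ j, c_ k p j :=
          Finset.single_le_sum (f := fun p => ∑ j, c_ k p j) (fun _ _ => Nat.zero_le _)
            (Finset.mem_univ p)
      _ ≤ ∑ k, ∑ p, ∑ j, c_ k p j :=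
            Finset.single_le_sum (f := fun k => ∑ p, ∑ j, c_ k p j) (fun _ _ => Nat.zero_le _)
            (Finset.mem_univ k)
      _ ≤ _ := Nat.le_succ _
  obtain ⟨At, hAt⟩ : ∃ At : ℕ → Fin (n + 1) → Matrix (Fin l) (Fin c) ℂ,
      ∀ t k p j, At t k p j = z k p j t := ⟨fun t k p j => z k p j t, fun _ _ _ _ => rfl⟩
  have hO : ∀ k p j, (fun t => At t k p j) ∈ P.O := by
    intro k p j
    have e1 : (fun t => At t k p j) = z k p j := by
      funext t
      exact hAt t k p j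
    rw [e1]
    exact hzO k p j
  have hev : ∀ k p j, P.ev (fun t => At t k p j) = algebraMap P.kb P.F (A k p j) := by
    intro k p j
    have e1 : (fun t => At t k p j) = z k p j := by
      funext t
      exact hAt t k p j
    rw [e1]
    exact hzev k p j
  have halgB : ∀ t k p j, AlgB δ (H t ^ c0) (At t k p j) := by
    intro t k p j
    rw [hAt]
    exact algB_mono2 (hzalg k p j t) (hδ k p j)
      (pow_le_pow_right₀ (by linarith [P.hH t]) (hc0 k p j))
  have hsemi := semi_evK P hECH hDSC K A At hO hev hA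
  obtain ⟨C, hC, hR⟩ := hHRA n lam K halg hMI δ l c
  have hH2 : ∀ t, 2 ≤ H t ^ c0 := by
    intro t
    have h2 := P.hH t
    calc (2 : ℝ) ≤ H t := h2
      _ = H t ^ 1 := (pow_one _).symm
      _ ≤ H t ^ c0 := pow_le_pow_right₀ (by linarith) hc01
  have h3 : ∀ᶠ t in (hyperfilter ℕ : Filter ℕ),
      ∃ x : (Σ m : Fin (l + 1), (Fin (m : ℕ) → Fin l) × (Fin (m : ℕ) → Fin c)),
      l * c ≤ (x.1 : ℕ) * (l + c) ∧
      1 ≤ (H t ^ c0) ^ C * ‖((MvC lam (At t)).submatrix x.2.1 x.2.2).det‖ := by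
    filter_upwards [hsemi] with t ht
    obtain ⟨m, I, J, h4, h5⟩ := hR (H t ^ c0) (hH2 t) (At t) (halgB t) ht
    have h6 : ((MvC lam (At t)).submatrix I J).det ≠ 0 := by
      intro h6
      rw [h6, norm_zero, mul_zero] at h5
      linarith
    have h7 : Function.Injective I := by
      intro a b hab
      by_contra hne
      apply h6
      refine Matrix.det_zero_of_row_eq hne ?_
      funext j
      simp [Matrix.submatrix_apply, hab]
    have h8 : m < l + 1 := by
      have := Fintype.card_le_of_injective I h7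
      simp only [Fintype.card_fin] at this
      omega
    exact ⟨⟨⟨m, h8⟩, I, J⟩, h4, h5⟩
  rw [Ultrafilter.eventually_exists_iff] at h3
  obtain ⟨⟨m, I, J⟩, hx⟩ := h3
  simp only at hx
  have hm : l * c ≤ (m : ℕ) * (l + c) := by
    obtain ⟨t, ht⟩ := hx.exists
    exact ht.1
  refine hm.trans (Nat.mul_le_mul_right _ ?_)
  have hMO : ∀ p j, (fun t => MvC lam (At t) p j) ∈ P.O ∧
      P.ev (fun t => MvC lam (At t) p j) = MvK (fun k => P.cst (lam k)) A p j := by
    intro p j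
    have e1 : (fun t => MvC lam (At t) p j) = (fun t => At t 0 p j) +
        ∑ k : Fin n, (fun _ => lam k) * (fun t => At t k.succ p j) := by
      funext t
      simp [MvC]
    have h4 : ∀ k ∈ Finset.univ, (fun _ => lam k) * (fun t => At t k.succ p j) ∈ P.O :=
      fun k _ => P.O.mul_mem (P.const_mem _) (hO k.succ p j)
    rw [e1]
    refine ⟨P.O.add_mem (hO 0 p j) (P.O.sum_mem h4), ?_⟩
    rw [P.ev_add (hO 0 p j) (P.O.sum_mem h4), P.ev_sum _ _ h4, hev]
    simp only [MvK]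
    congr 1
    refine Finset.sum_congr rfl fun k _ => ?_
    rw [P.ev_mul (P.const_mem _) (hO k.succ p j), hev]
    rfl
  obtain ⟨h5, h6⟩ := det_ev P (fun t => MvC lam (At t)) (MvK (fun k => P.cst (lam k)) A)
    (fun p j => (hMO p j).1) (fun p j => (hMO p j).2) I J
  have h7 : ((MvK (fun k => P.cst (lam k)) A).submatrix I J).det ≠ 0 := by
    rw [← h6]
    intro h7
    rw [P.ev_eq_zero h5] at h7
    obtain ⟨N, hN⟩ : ∃ N : ℕ, (c0 : ℝ) * C ≤ N := exists_nat_ge _
    obtain ⟨t, ht1, ht2⟩ := (hx.and (h7 (N + 1))).exists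
    have hpos : 0 < H t := by linarith [P.hH t]
    have h8 : (H t ^ c0) ^ C ≤ H t ^ N := by
      rw [← Real.rpow_natCast (H t) c0, ← Real.rpow_mul hpos.le, ← Real.rpow_natCast (H t) N]
      exact Real.rpow_le_rpow_of_exponent_le (by linarith [P.hH t]) hN
    have h9 := norm_nonneg ((MvC lam (At t)).submatrix I J).det
    have h10 := ht1.2
    have h11 := mul_le_mul_of_nonneg_right h8 h9
    rw [pow_succ] at ht2
    have h12 := P.hH t
    have h13 : 1 ≤ H t ^ N * ‖((MvC lam (At t)).submatrix I J).det‖ := h10.trans h11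
    nlinarith
  have h8 : ((MvK (fun k => P.cst (lam k)) A).submatrix I J).rank = (m : ℕ) := by
    have := Matrix.rank_of_isUnit _ ((Matrix.isUnit_iff_isUnit_det _).2 (isUnit_iff_ne_zero.2 h7))
    simpa using this
  rw [← h8]
  exact Matrix.rank_submatrix_le _ _ _

end Pool.Agent.H60.PER
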