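import Pool.Agent.H72.PER.Targets
import Pool.Agent.H48.SBP.FHR

/-! Row HRW of the board per_modules: the weighted half rank theorem with polynomial loss, from its
version in the residue field. -/

open Module Filter

namespace Pool.Agent.H60.PER

open Pool.Agent.H72.SBP
open Pool.Agent.H72.BF (Pkg AlgB T_ROOT T_PKG)
open Pool.Agent.H72.HRA (MvC)
open Pool.Agent.H72.PER
open Pool.Agent.H48.SBP (algB_mono2 det_ev)

/-- independent members of a family -/
theorem exists_indepW {F V ι : Type*} [Field F] [AddCommGroup V] [Module F V] [Finite ι]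
    (v : ι → V) (r : ℕ) (h : r ≤ finrank F (Submodule.span F (Set.range v))) :
    ∃ g : Fin r → ι, LinearIndependent F (v ∘ g) := by
  have hfin : Module.Finite F (Submodule.span F (Set.range v)) :=
    Module.Finite.span_of_finite F (Set.finite_range v)
  obtain ⟨f, hf, _, hli⟩ := Submodule.exists_fun_fin_finrank_span_eq F (Set.range v)
  choose g hg using hf
  refine ⟨fun i => g (Fin.castLE h i), ?_⟩
  have h1 : v ∘ (fun i => g (Fin.castLE h i)) = f ∘ Fin.castLE h := by
    funext i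
    exact hg _
  rw [h1]
  exact hli.comp _ (Fin.castLE_injective h)

/-- a matrix has a nonvanishing minor of the order of its rank -/
theorem exists_minorW {F : Type*} [Field F] {l c : ℕ} (M : Matrix (Fin l) (Fin c) F) (r : ℕ)
    (h : r ≤ M.rank) : ∃ (f : Fin r → Fin l) (g : Fin r → Fin c), (M.submatrix f g).det ≠ 0 := by
  rw [Matrix.rank_eq_finrank_span_cols] at h
  obtain ⟨g, hg⟩ := exists_indepW _ r h
  have h2 : (M.submatrix id g).rank = r := by
    have h3 := LinearIndependent.rank_matrix (M := (M.submatrix id g).transpose) hg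
    rw [Matrix.rank_transpose, Fintype.card_fin] at h3
    exact h3
  have h4 : r ≤ (M.submatrix id g).rank := h2.ge
  rw [Matrix.rank_eq_finrank_span_row] at h4
  obtain ⟨f, hf⟩ := exists_indepW _ r h4
  refine ⟨f, g, ?_⟩
  have h5 : LinearIndependent F (M.submatrix f g).row := hf
  rw [Matrix.linearIndependent_rows_iff_isUnit, Matrix.isUnit_iff_isUnit_det,
    isUnit_iff_ne_zero] at h5
  exact h5

/-- residues of sequences of algebraic numbers of bounded degree -/
theorem res_alg {H : ℕ → ℝ} (P : Pkg H) (hR : T_ROOT) (δ : ℕ) (x : ℕ → ℂ)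
    (hx : ∀ t, AlgB δ (H t) (x t)) : x ∈ P.O ∧ IsAlgebraic P.kk (P.ev x) := by
  have hxO : x ∈ P.O := by
    refine P.mem_of_le 2 fun t => ?_
    have h1 := (hR δ (H t) (x t) (by linarith [P.hH t]) (hx t)).1
    have h2 := P.hH t
    nlinarith
  refine ⟨hxO, ?_⟩
  choose p hp0 hpd hpc hp using hx
  have hBd : ∀ i, P.Bd (fun t => (p t).coeff i) := fun i => P.bd_of_le 1 fun t => by
    rw [pow_one]
    exact hpc t i
  have hmem : ∀ i, P.evZ (fun t => (p t).coeff i) ∈ P.kk := fun i =>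
    Subfield.subset_closure ⟨_, hBd i, rfl⟩
  refine ⟨∑ i ∈ Finset.range (δ + 1),
    Polynomial.C (⟨P.evZ (fun t => (p t).coeff i), hmem i⟩ : P.kk) * Polynomial.X ^ i, ?_, ?_⟩
  · intro h0
    have h1 : ∀ i ∈ Finset.range (δ + 1), ∀ᶠ t in (hyperfilter ℕ : Filter ℕ),
        (p t).coeff i = 0 := by
      intro i hi
      rw [← P.evZ_eq_zero (hBd i)]
      have h2 := congrArg (fun q => q.coeff i) h0
      simp only [Polynomial.finset_sum_coeff, Polynomial.coeff_C_mul, Polynomial.coeff_X_pow,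
        Polynomial.coeff_zero, mul_ite, mul_one, mul_zero, Finset.sum_ite_eq, hi, if_true] at h2
      exact congrArg Subtype.val h2
    have h2 : ∀ᶠ t in (hyperfilter ℕ : Filter ℕ), ∀ i ∈ Finset.range (δ + 1),
        (p t).coeff i = 0 := (Filter.eventually_all_finset _).2 h1
    obtain ⟨t, ht⟩ := h2.exists
    apply hp0 t
    ext i
    rw [Polynomial.coeff_zero]
    by_cases hi : i ∈ Finset.range (δ + 1)
    · exact ht i hi
    · apply Polynomial.coeff_eq_zero_of_natDegree_lt
      have := hpd t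
      rw [Finset.mem_range] at hi
      omega
  · simp only [map_sum, map_mul, Polynomial.aeval_C, map_pow, Polynomial.aeval_X]
    have h1 : ∀ i ∈ Finset.range (δ + 1),
        (fun t => (((p t).coeff i : ℤ) : ℂ)) * x ^ i ∈ P.O :=
      fun i _ => P.O.mul_mem (hBd i) (P.O.pow_mem hxO i)
    have h2 : P.ev (∑ i ∈ Finset.range (δ + 1),
        (fun t => (((p t).coeff i : ℤ) : ℂ)) * x ^ i) = 0 := by
      have h4 : (∑ i ∈ Finset.range (δ + 1),
          (fun t => (((p t).coeff i : ℤ) : ℂ)) * x ^ i) = 0 := by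
        funext t
        have h3 := hp t
        rw [Polynomial.aeval_eq_sum_range' (Nat.lt_succ_of_le (hpd t))] at h3
        rw [Finset.sum_apply]
        simpa [zsmul_eq_mul] using h3
      rw [h4, P.ev_zero]
    rw [P.ev_sum _ _ h1] at h2
    rw [← h2]
    refine Finset.sum_congr rfl fun i hi => ?_
    rw [P.ev_mul (hBd i) (P.O.pow_mem hxO i), P.ev_pow hxO]
    rfl

theorem pf_HRW (hPKG : T_PKG) (hROOT : T_ROOT) (h1 : T_HRL) (h2 : T_WGT) (h3 : T_LFX) :
    HalfRankPlus0 := by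
  classical
  intro n z halg hli δ l c p q hp hq
  by_contra hcon
  push Not at hcon
  have hB : ∀ k : ℕ, ∃ H : ℝ, 2 ≤ H ∧ ∃ A : Fin (n + 1) → Matrix (Fin l) (Fin c) ℂ,
      (∀ k i j, AlgB δ H (A k i j)) ∧ ∃ N : ℕ,
      (∀ (V : Submodule ℂ (Fin l → ℂ)) (U : Submodule ℂ (Fin c → ℂ)),
        Into Set.univ A V U → N ≤ p * (l - finrank ℂ V) + q * finrank ℂ U) ∧
      ∀ (m : ℕ) (I : Fin m → Fin l) (J : Fin m → Fin c), N ≤ (p + q) * m →
        H ^ ((k : ℝ) + 1) * ‖((MvC z A).submatrix I J).det‖ < 1 := by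
    intro k
    obtain ⟨H, hH, A, hA, N, hN, hm⟩ := hcon ((k : ℝ) + 1) (by positivity)
    exact ⟨H, hH, A, hA, N, hN, hm⟩
  choose H' hH2' A' hA' N' hN' hm' using hB
  obtain ⟨r, hr⟩ : ∃ r : ℕ → ℕ, r = fun j => (j + 2) * (j + 1) := ⟨_, rfl⟩
  obtain ⟨H, hH⟩ : ∃ H : ℕ → ℝ, H = fun j => max (H' (r j)) ((j : ℝ) + 2) := ⟨_, rfl⟩
  have hH2 : ∀ j, 2 ≤ H j := fun j => by
    rw [hH]
    exact (hH2' (r j)).trans (le_max_left _ _)
  have hHle : ∀ j, H' (r j) ≤ H j := fun j => by
    rw [hH]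
    exact le_max_left _ _
  have htH : ∀ j : ℕ, (j : ℝ) + 2 ≤ H j := fun j => by
    rw [hH]
    exact le_max_right _ _
  have hpow : ∀ j : ℕ, H j ^ ((j : ℝ) + 1) ≤ H' (r j) ^ ((r j : ℝ) + 1) := by
    intro j
    have h2H := hH2' (r j)
    have h5 : H j ≤ H' (r j) ^ ((j : ℝ) + 2) := by
      rw [hH]
      refine max_le ?_ ?_
      · calc H' (r j) = H' (r j) ^ (1 : ℝ) := (Real.rpow_one _).symm
          _ ≤ H' (r j) ^ ((j : ℝ) + 2) :=
            Real.rpow_le_rpow_of_exponent_le (by linarith) (by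
              have : (0 : ℝ) ≤ j := Nat.cast_nonneg j
              linarith)
      · have h6 : ((j : ℝ) + 2) ≤ 2 ^ ((j : ℝ) + 2) := by
          have h7 : j + 2 ≤ 2 ^ (j + 2) := Nat.lt_two_pow_self.le
          have h8 : (2 : ℝ) ^ ((j : ℝ) + 2) = 2 ^ (j + 2 : ℕ) := by
            rw [← Real.rpow_natCast]
            push_cast
            rfl
          rw [h8]
          exact_mod_cast h7
        refine h6.trans ?_
        exact Real.rpow_le_rpow (by norm_num) h2H (by positivity)
    calc H j ^ ((j : ℝ) + 1) ≤ (H' (r j) ^ ((j : ℝ) + 2)) ^ ((j : ℝ) + 1) :=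
          Real.rpow_le_rpow (by linarith [hH2 j]) h5 (by positivity)
      _ = H' (r j) ^ (((j : ℝ) + 2) * ((j : ℝ) + 1)) := by
          rw [Real.rpow_mul (by linarith)]
      _ ≤ H' (r j) ^ ((r j : ℝ) + 1) := by
          refine Real.rpow_le_rpow_of_exponent_le (by linarith) ?_
          rw [hr]
          push_cast
          linarith
  obtain ⟨P⟩ := hPKG H hH2
  -- the number `N` is constant
  have hNle : ∀ t, N' (r t) ≤ p * l := fun t => by
    have h4 := hN' (r t) ⊥ ⊥ (by
      intro k _ y hy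
      rw [Submodule.mem_bot] at hy ⊢
      rw [hy, Matrix.zero_vecMul])
    simpa using h4
  have hNc : ∀ᶠ t in (hyperfilter ℕ : Filter ℕ), ∃ N : Fin (p * l + 1), N' (r t) = (N : ℕ) :=
    Filter.Eventually.of_forall fun t => ⟨⟨N' (r t), Nat.lt_succ_of_le (hNle t)⟩, rfl⟩
  rw [Ultrafilter.eventually_exists_iff] at hNc
  obtain ⟨N, hN⟩ := hNc
  -- the entries
  obtain ⟨At, hAt0⟩ : ∃ At : ℕ → Fin (n + 1) → Matrix (Fin l) (Fin c) ℂ,
      At = fun t => A' (r t) := ⟨_, rfl⟩
  have hAt : ∀ t k i j, AlgB δ (H t) (At t k i j) := fun t k i j => by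
    rw [hAt0]
    exact algB_mono2 (hA' (r t) k i j) le_rfl (hHle t)
  have hO : ∀ k i j, (fun t => At t k i j) ∈ P.O := fun k i j =>
    (res_alg P hROOT δ _ (fun t => hAt t k i j)).1
  have hkb : ∀ k i j, P.ev (fun t => At t k i j) ∈ P.kb := fun k i j =>
    mem_algebraicClosure_iff.2 (res_alg P hROOT δ _ (fun t => hAt t k i j)).2
  obtain ⟨A, hA⟩ : ∃ A : Fin (n + 1) → Matrix (Fin l) (Fin c) P.kb,
      ∀ k i j, P.ev (fun t => At t k i j) = algebraMap P.kb P.F (A k i j) :=
    ⟨fun k i j => ⟨_, hkb k i j⟩, fun _ _ _ => rfl⟩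
  have hHRS := h1 n z hli halg H htH P
  have hrank : ¬ (N : ℕ) ≤ (p + q) * (MvK (fun k => P.cst (z k)) A).rank := by
    intro hle
    obtain ⟨I, J, hIJ⟩ := exists_minorW (MvK (fun k => P.cst (z k)) A) _ le_rfl
    have hMO : ∀ p j, (fun t => MvC z (At t) p j) ∈ P.O ∧
        P.ev (fun t => MvC z (At t) p j) = MvK (fun k => P.cst (z k)) A p j := by
      intro p j
      have e1 : (fun t => MvC z (At t) p j) = (fun t => At t 0 p j) +
          ∑ k : Fin n, (fun _ => z k) * (fun t => At t k.succ p j) := by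
        funext t
        simp [MvC]
      have h4 : ∀ k ∈ Finset.univ, (fun _ => z k) * (fun t => At t k.succ p j) ∈ P.O :=
        fun k _ => P.O.mul_mem (P.const_mem _) (hO k.succ p j)
      rw [e1]
      refine ⟨P.O.add_mem (hO 0 p j) (P.O.sum_mem h4), ?_⟩
      rw [P.ev_add (hO 0 p j) (P.O.sum_mem h4), P.ev_sum _ _ h4, hA]
      simp only [MvK]
      congr 1
      refine Finset.sum_congr rfl fun k _ => ?_
      rw [P.ev_mul (P.const_mem _) (hO k.succ p j), hA]
      rfl
    obtain ⟨h5, h6⟩ := det_ev P (fun t => MvC z (At t)) (MvK (fun k => P.cst (z k)) A)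
      (fun p j => (hMO p j).1) (fun p j => (hMO p j).2) I J
    apply hIJ
    rw [← h6, P.ev_eq_zero h5]
    intro e
    have hge : ∀ᶠ t in (hyperfilter ℕ : Filter ℕ), e ≤ t := by
      have h7 := (Filter.eventually_ge_atTop e).filter_mono Nat.hyperfilter_le_atTop
      exact h7
    filter_upwards [hN, hge] with t ht1 ht2
    have h8 := hm' (r t) _ I J (by rw [ht1]; exact hle)
    have h9 : ((MvC z (At t)).submatrix I J) = ((MvC z (A' (r t))).submatrix I J) := by
      rw [hAt0]
    rw [h9]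
    have h10 : H t ^ e ≤ H' (r t) ^ ((r t : ℝ) + 1) := by
      refine le_trans ?_ (hpow t)
      rw [← Real.rpow_natCast (H t) e]
      refine Real.rpow_le_rpow_of_exponent_le (by linarith [hH2 t]) ?_
      have h11 : (e : ℝ) ≤ t := by exact_mod_cast ht2
      linarith
    have h12 := mul_le_mul_of_nonneg_right h10
      (norm_nonneg ((MvC z (A' (r t))).submatrix I J).det)
    rw [mul_comm]
    linarith
  have hVU := mt (h2 P.kb P.F n _ hHRS l c p q N A hp hq) hrank
  push Not at hVU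
  obtain ⟨V, U, hVU1, hVU2⟩ := hVU
  have h4 := h3 H P n l c δ At hAt A hA V U hVU1
  obtain ⟨t, ⟨V', U', e1, e2, e3⟩, e4⟩ := (h4.and hN).exists
  rw [hAt0] at e3
  have h5 := hN' (r t) V' U' e3
  rw [e1, e2, e4] at h5
  omega

end Pool.Agent.H60.PER
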